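import Pool.Agent.Helper18.KC.Basic
import Pool.Agent.Helper36.BN.Exchange

/-!
Statements of the parts of the linear bound (swarm KO).
-/

set_option autoImplicit false

namespace BNTW

open Finset

section hubs

variable {ι V : Type} [Fintype V] [DecidableEq V]

/-- `y` is an even vector of the graph with one hub for every `i ∈ P`, joined to the vertices
in `N i`. -/
def HubEven (N : ι → Finset V) (P : Finset ι) (y : ι × V → ZMod 2) : Prop :=
  (∀ p, y p ≠ 0 → p.1 ∈ P ∧ p.2 ∈ N p.1) ∧ (∀ v, ∑ i ∈ P, y (i, v) = 0) ∧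
    ∀ i ∈ P, ∑ v, y (i, v) = 0

/-- There is a generating family of the even vectors of the hub graph in which every member passes
every hub at most once and every hub is in at most `own` members. -/
def HubFam (N : ι → Finset V) (P : Finset ι) (own : ℕ) : Prop :=
  ∃ Y : Finset (ι × V → ZMod 2),
    (∀ y ∈ Y, HubEven N P y ∧ ∀ i ∈ P, (univ.filter (fun v => y (i, v) ≠ 0)).card ≤ 2) ∧
    (∀ z, HubEven N P z → z ∈ Submodule.span (ZMod 2) (Y : Set (ι × V → ZMod 2))) ∧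
    ∀ i ∈ P, (Y.filter (fun y => ∃ v, y (i, v) ≠ 0)).card ≤ own

end hubs

/-- the number of edges of `F` at `v` -/
def dg {V E : Type} [DecidableEq V] (s t : E → V) (F : Finset E) (v : V) : ℕ :=
  (F.filter (fun e => s e = v ∨ t e = v)).card

/-- the vertices on the support of `x` -/
def tch {V E : Type} [Fintype V] [DecidableEq V] [Fintype E] (s t : E → V) (x : E → ZMod 2) :
    Finset V :=
  univ.filter (fun v => ∃ e, x e ≠ 0 ∧ (s e = v ∨ t e = v))

/-- the cost of `x` for the weights `a` of the edges and `u` of the vertices -/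
def cost {V E : Type} [Fintype V] [DecidableEq V] [Fintype E] (s t : E → V) (a : E → ℕ)
    (u : V → ℕ) (x : E → ZMod 2) : ℕ :=
  (∑ e, if x e ≠ 0 then a e else 0) + ∑ v ∈ tch s t x, u v

/-- Part KRAFT: a cycle that is short if a vertex counts as the logarithm of its degree. -/
def S_KRAFT : Prop :=
  ∀ (V E : Type) [Fintype V] [DecidableEq V] [Fintype E] [DecidableEq E] (s t : E → V)
    (F : Finset E) (J K : ℕ), F.Nonempty → (∀ e ∈ F, s e ≠ t e) →
    (∀ v, dg s t F v = 0 ∨ 3 ≤ dg s t F v) →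
    (univ.filter (fun v => dg s t F v ≠ 0)).card ≤ 2 ^ J → (∀ v, dg s t F v ≤ 2 ^ K) →
    ∃ x ∈ Pool.Agent.Helper36.BN.cyc s t F, x ≠ 0 ∧
      ∑ v ∈ tch s t x, Nat.log 2 (dg s t F v - 1) ≤ 2 * J + 3 * K

/-- Part MIN1: a nonzero even vector contains one all of whose degrees are at most two. -/
def S_MIN1 : Prop :=
  ∀ (V E : Type) [Fintype V] [DecidableEq V] [Fintype E] [DecidableEq E] (s t : E → V)
    (F : Finset E), (∀ e ∈ F, s e ≠ t e) →
    ∀ x ∈ Pool.Agent.Helper36.BN.cyc s t F, x ≠ 0 →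
    ∃ y ∈ Pool.Agent.Helper36.BN.cyc s t F, y ≠ 0 ∧ (∀ e, y e ≠ 0 → x e ≠ 0) ∧
      ∀ v, (univ.filter (fun e => y e ≠ 0 ∧ (s e = v ∨ t e = v))).card ≤ 2

/-- Part MIN2: every basis can be replaced by one whose members have degrees at most two and
smaller supports. -/
def S_MIN2 : Prop :=
  ∀ (V E : Type) [Fintype V] [DecidableEq V] [Fintype E] [DecidableEq E] (s t : E → V)
    (F : Finset E), (∀ e ∈ F, s e ≠ t e) →
    ∀ (ι : Type) [Fintype ι] [DecidableEq ι]
      (b : Module.Basis ι (ZMod 2) (Pool.Agent.Helper36.BN.cyc s t F)),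
      ∃ b' : Module.Basis ι (ZMod 2) (Pool.Agent.Helper36.BN.cyc s t F), ∀ j,
        (∀ e, (b' j : E → ZMod 2) e ≠ 0 → (b j : E → ZMod 2) e ≠ 0) ∧
        ∀ v, (univ.filter (fun e => (b' j : E → ZMod 2) e ≠ 0 ∧ (s e = v ∨ t e = v))).card ≤ 2

/-- Part CHEAPV: a cheap generating list for weights of edges and vertices.  Here
`Λ = 2 J + 3 K`, the vertices of degree more than `2 ^ l` are big, and `β` bounds the number of the
big vertices on a short cycle. -/
def S_CHEAPV : Prop :=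
  ∀ (J K l β : ℕ), 1 ≤ K → 2 * J + 3 * K ≤ β * l →
  ∀ (V E : Type) [Fintype V] [DecidableEq V] [Fintype E] [DecidableEq E] (F : Finset E)
    (s t : E → V) (a : E → ℕ) (u : V → ℕ),
    (univ.filter (fun v => dg s t F v ≠ 0)).card ≤ 2 ^ J → (∀ v, dg s t F v ≤ 2 ^ K) →
    ∃ X : List (E → ZMod 2), Pool.Agent.Helper36.BN.spn X = Pool.Agent.Helper36.BN.cyc s t F ∧
      (X.map (cost s t a u)).sum ≤ 3 * (2 * J + 3 * K) * ∑ e ∈ F, a e +
        ∑ v, u v * (3 * (2 * J + 3 * K) * min (dg s t F v) (2 ^ l + 1) + 3 * β * dg s t F v)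

/-- Part EXCH: exchange argument for arbitrary costs with values zero and one. -/
def S_EXCH : Prop :=
  ∀ (E ι I : Type) [Fintype E] [DecidableEq E] [Fintype ι] [DecidableEq ι] [Fintype I]
    (C : Submodule (ZMod 2) (E → ZMod 2)) (N : I → (E → ZMod 2) → ℕ), (∀ i x, N i x ≤ 1) →
    ∀ (M : ℕ), (∀ w : I → ℕ, ∃ b : Module.Basis ι (ZMod 2) C,
      ∑ j, ∑ i, w i * N i (b j : E → ZMod 2) ≤ M * ∑ i, w i) →
    ∃ b : Module.Basis ι (ZMod 2) C, ∀ i, ∑ j, N i (b j : E → ZMod 2) ≤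
      2 * M + Nat.log 2 (Fintype.card I)

/-- Part HMIN: from a generating family with small loads of the hubs to a hub family. -/
def S_HMIN : Prop :=
  ∀ (ι V : Type) [Fintype ι] [DecidableEq ι] [Fintype V] [DecidableEq V] (N : ι → Finset V)
    (P : Finset ι) (B : Finset (ι × V → ZMod 2)) (own : ℕ), (∀ y ∈ B, HubEven N P y) →
    (∀ z, HubEven N P z → z ∈ Submodule.span (ZMod 2) (B : Set (ι × V → ZMod 2))) →
    (∀ i ∈ P, (B.filter (fun y => ∃ v, y (i, v) ≠ 0)).card ≤ own) → HubFam N P own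

/-- Part SKEL: hub families with load of the order of the degree. -/
def S_SKEL : Prop :=
  ∃ C : ℕ, ∀ (ι V : Type) [Fintype ι] [DecidableEq ι] [Fintype V] [DecidableEq V]
    (N : ι → Finset V) (P : Finset ι) (D : ℕ), 1 ≤ D → (∀ i ∈ P, (N i).card ≤ D) →
    P.card ≤ D ^ 8 → HubFam N P (C * D)

/-- Part CONTR: choice between two routes for every end of every demand. -/
def S_CONTR : Prop :=
  ∀ (ι V κ : Type) [Fintype ι] [DecidableEq ι] [DecidableEq V] [DecidableEq κ] (S : Finset V)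
    (Y1 Y2 : V → Finset ι) (cap : ι → Prop),
    (∀ x ∈ S, ∀ f, cap f → f ∈ Y1 x → f ∉ Y2 x) →
    ∀ (J : Finset κ) (dem : κ → V × V), (∀ j ∈ J, (dem j).1 ∈ S ∧ (dem j).2 ∈ S) →
    ∃ Q : κ → Finset ι, (∀ j ∈ J, Q j = Y1 (dem j).1 ∪ Y1 (dem j).2 ∨
        Q j = Y1 (dem j).1 ∪ Y2 (dem j).2 ∨ Q j = Y2 (dem j).1 ∪ Y1 (dem j).2 ∨
        Q j = Y2 (dem j).1 ∪ Y2 (dem j).2) ∧
      ∀ f, cap f → 16 * (J.filter (fun j => f ∈ Q j)).card ≤ 13 * J.card + 32 * S.card

/-- The members of `L` inside `t` that leave three vertices of `S` pairwise separated. -/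
noncomputable def U3 {V E : Type} [DecidableEq V] [DecidableEq E] (ends : E → V × V)
    (L : Finset (Finset E)) (t : Finset E) (S : Finset V) : Finset (Finset E) := by
  classical
  exact L.filter (fun D => D ⊆ t ∧ ∃ x ∈ S, ∃ y ∈ S, ∃ z ∈ S, ¬ Cn ends (t \ D) x y ∧
    ¬ Cn ends (t \ D) x z ∧ ¬ Cn ends (t \ D) y z)

/-- The maximal members of `L` inside `t` outside `U3`, and the single edges of `U3`. -/
noncomputable def F3 {V E : Type} [DecidableEq V] [DecidableEq E] (ends : E → V × V)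
    (L : Finset (Finset E)) (t : Finset E) (S : Finset V) : Finset (Finset E) := by
  classical
  exact L.filter (fun c => c ⊆ t ∧ (∀ D ∈ L, c ⊂ D → D ⊆ t → D ∈ U3 ends L t S) ∧
    (c ∉ U3 ends L t S ∨ c.card = 1))

/-- Part U3MIN: the number of the minimal members of `U3`. -/
def S_U3MIN : Prop :=
  ∀ (V E : Type) [Fintype V] [Fintype E] [DecidableEq V] [DecidableEq E] (ends : E → V × V)
    (b : ℕ) (L : Finset (Finset E)), Lam ends b L → ∀ t ∈ L, ∀ S ⊆ VS ends t,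
    ((U3 ends L t S).filter (fun D => ∀ D' ∈ U3 ends L t S, D' ⊆ D → D' = D)).card ≤ S.card ^ 3

/-- Part REG: the regions. -/
def S_REG : Prop :=
  ∀ (V E : Type) [Fintype V] [Fintype E] [DecidableEq V] [DecidableEq E] (ends : E → V × V)
    (b : ℕ) (L : Finset (Finset E)), Lam ends b L → ∀ t ∈ L, ∀ S ⊆ VS ends t,
    t ∈ U3 ends L t S → 1 < t.card →
    ∃ R : Finset (Finset E),
      R.card ≤ ((U3 ends L t S).filter (fun D => ∀ D' ∈ U3 ends L t S, D' ⊆ D → D' = D)).card ^ 2 ∧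
      (∀ A ∈ R, A ⊆ t ∧ (bdry ends A).card ≤ 2 * b) ∧ (∀ A ∈ R, ∀ B ∈ R, A ≠ B → Disjoint A B) ∧
      (∀ e ∈ t, ∃ A ∈ R, e ∈ A) ∧ (∀ f ∈ F3 ends L t S, ∃ A ∈ R, f ⊆ A) ∧
      ∀ A ∈ R, ∃ key : Finset E → ℕ, Set.InjOn key (F3 ends L t S : Set (Finset E)) ∧
        ∀ c ∈ (F3 ends L t S).filter (fun f => f ⊆ A),
          ((((((F3 ends L t S).filter (fun f => f ⊆ A)).filter
              (fun c' => key c' ≤ key c)).biUnion (bdry ends)) ∩
            ((((F3 ends L t S).filter (fun f => f ⊆ A)).filter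
              (fun c' => key c < key c')).biUnion (bdry ends))) ∪ bdry ends c).card ≤ b

/-- Part COMP: the components of the regions of a connected piece. -/
def S_COMP : Prop :=
  ∀ (V E : Type) [Fintype V] [Fintype E] [DecidableEq V] [DecidableEq E] (ends : E → V × V)
    (t : Finset E) (d : ℕ) (R : Finset (Finset E)), IsCn ends t → 1 ≤ d →
    (∀ A ∈ R, A ⊆ t ∧ (bdry ends A).card ≤ d) → (∀ A ∈ R, ∀ B ∈ R, A ≠ B → Disjoint A B) →
    (∀ e ∈ t, ∃ A ∈ R, e ∈ A) →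
    ∃ H : Finset (Finset E), H.card ≤ R.card * d ∧
      (∀ η ∈ H, IsCn ends η ∧ η ⊆ t ∧ ∃ A ∈ R, η ⊆ A ∧ bdry ends η ⊆ bdry ends A) ∧
      (∀ A ∈ H, ∀ B ∈ H, A ≠ B → Disjoint A B) ∧ (∀ e ∈ t, ∃ η ∈ H, e ∈ η) ∧
      ∀ f, IsCn ends f → (∃ A ∈ R, f ⊆ A) → ∃ η ∈ H, f ⊆ η

end BNTW
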